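import Mathlib

/-!
# Associated primes: two general lemmas
-/

set_option autoImplicit false

namespace Q37

/-- If no `h ^ N * w` lies in `L` then there is an associated prime of `S / L` which does not
contain `h` and contains every `s` with `s * h ^ M * w ∈ L` for some `M`. -/
theorem exists_assoc_of_pow {S : Type*} [CommRing S] [IsNoetherianRing S] (L : Ideal S) (h w : S)
    (hw : ∀ N : ℕ, h ^ N * w ∉ L) :
    ∃ Q ∈ associatedPrimes S (S ⧸ L), h ∉ Q ∧ ∀ s : S, (∃ M : ℕ, s * h ^ M * w ∈ L) → s ∈ Q := by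
  classical
  -- the ascending chain of the ideals `L : h ^ N w`
  let J : ℕ →o Ideal S :=
    { toFun := fun N => L.colon {h ^ N * w}
      monotone' := by
        intro a b hab s hs
        rw [Submodule.mem_colon_singleton] at hs ⊢
        obtain ⟨c, rfl⟩ := Nat.exists_eq_add_of_le hab
        have : s • (h ^ (a + c) * w) = h ^ c * (s • (h ^ a * w)) := by
          simp only [smul_eq_mul]; ring
        rw [this]
        exact L.mul_mem_left _ hs }
  obtain ⟨N, hN⟩ := (monotone_stabilizes_iff_noetherian (R := S) (M := S)).mpr inferInstance J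
  have hJ : ∀ (s : S) (M : ℕ), s * h ^ M * w ∈ L → s * (h ^ N * w) ∈ L := by
    intro s M hs
    have h1 : s ∈ J M := by
      show s ∈ L.colon {h ^ M * w}
      rw [Submodule.mem_colon_singleton, smul_eq_mul]
      rwa [← mul_assoc]
    have h2 : s ∈ J (max M N) := J.monotone (le_max_left _ _) h1
    rw [← hN _ (le_max_right _ _)] at h2
    have h3 : s ∈ L.colon {h ^ N * w} := h2
    rwa [Submodule.mem_colon_singleton, smul_eq_mul] at h3
  let g : S ⧸ L := Ideal.Quotient.mk L (h ^ N * w)
  have hg : g ≠ 0 := by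
    intro h0
    exact hw N (Ideal.Quotient.eq_zero_iff_mem.mp h0)
  let M' : Submodule S (S ⧸ L) := Submodule.span S {g}
  have hgM : g ∈ M' := Submodule.mem_span_singleton_self g
  obtain ⟨Q, hQ, hle⟩ := exists_le_isAssociatedPrime_of_isNoetherianRing S (⟨g, hgM⟩ : M')
    (fun h0 => hg (by simpa using congrArg Subtype.val h0))
  have hQ' : IsAssociatedPrime Q (S ⧸ L) := hQ.map_of_injective M'.subtype M'.injective_subtype
  obtain ⟨hQp, ⟨m, hm⟩, hQm⟩ := isAssociatedPrime_iff.mp hQ
  refine ⟨Q, hQ', ?_, ?_⟩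
  · intro hh
    rw [hQm, Submodule.mem_colon_singleton, Submodule.mem_bot] at hh
    have hh' : h • m = 0 := by simpa using congrArg Subtype.val hh
    obtain ⟨s, rfl⟩ := Submodule.mem_span_singleton.mp hm
    have e1 : h • s • g = Ideal.Quotient.mk L (s * h ^ (N + 1) * w) := by
      show Ideal.Quotient.mk L (h * (s * (h ^ N * w))) = _
      congr 1; ring
    rw [e1, Ideal.Quotient.eq_zero_iff_mem] at hh'
    have h3 := hJ s (N + 1) hh'
    apply hQp.ne_top
    rw [hQm, Ideal.eq_top_iff_one, Submodule.mem_colon_singleton, Submodule.mem_bot]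
    apply Subtype.ext
    show (1 : S) • s • g = 0
    rw [one_smul]
    show Ideal.Quotient.mk L (s * (h ^ N * w)) = 0
    rwa [Ideal.Quotient.eq_zero_iff_mem]
  · rintro s ⟨M, hs⟩
    apply hle
    rw [Submodule.mem_colon_singleton, Submodule.mem_bot]
    apply Subtype.ext
    show s • g = 0
    show Ideal.Quotient.mk L (s * (h ^ N * w)) = 0
    rw [Ideal.Quotient.eq_zero_iff_mem]
    exact hJ s M hs

/-- An associated prime of `S / L` that properly contains a prime containing `L` properly
contains another associated prime. -/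
theorem exists_assoc_lt {S : Type*} [CommRing S] [IsNoetherianRing S] (L Q P₀ : Ideal S)
    (hP : P₀.IsPrime) (hL : L ≤ P₀) (hQ : P₀ < Q) :
    ∃ P ∈ associatedPrimes S (S ⧸ L), P < Q := by
  obtain ⟨P, hP1, hP2⟩ := Ideal.exists_minimalPrimes_le hL
  refine ⟨P, ?_, lt_of_le_of_lt hP2 hQ⟩
  apply Module.associatedPrimes.minimalPrimes_annihilator_subset_associatedPrimes S (S ⧸ L)
  rwa [Ideal.annihilator_quotient]

end Q37
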