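import Pool.Agent.Q37.Dim.Closure

/-!
# Ideals generated by entries of the commutator of two generic matrices
-/

set_option autoImplicit false
set_option linter.unusedSectionVars false

open MvPolynomial

namespace Q37.Comm

open Q37.Dim

variable {K : Type} [Field K] {n : ℕ}

/-- entries of the commutator -/
noncomputable def cm (K : Type) [Field K] (n : ℕ) (i j : Fin n) :
    MvPolynomial ((Fin n × Fin n) ⊕ (Fin n × Fin n)) K :=
  ∑ k, (X (Sum.inl (i, k)) * X (Sum.inr (k, j)) - X (Sum.inr (i, k)) * X (Sum.inl (k, j)))

/-- the matrix of the entries at the positions `pos`, linear in the first block -/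
noncomputable def mt (K : Type) [Field K] {n : ℕ} {s : Type} (pos : s → Fin n × Fin n) :
    Matrix s (Fin n × Fin n) (MvPolynomial (Fin n × Fin n) K) := fun k x =>
  (if x.1 = (pos k).1 then X (x.2, (pos k).2) else 0) -
    (if x.2 = (pos k).2 then X ((pos k).1, x.1) else 0)

variable {s : Type} [Fintype s]

lemma lf_mt (pos : s → Fin n × Fin n) (k : s) :
    lf (mt K pos) k = cm K n (pos k).1 (pos k).2 := by
  rw [lf, Fintype.sum_prod_type]
  simp only [mt, map_sub, sub_mul, Finset.sum_sub_distrib]
  rw [cm, Finset.sum_sub_distrib]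
  congr 1
  · rw [Finset.sum_eq_single (pos k).1]
    · refine Finset.sum_congr rfl fun b _ => ?_
      rw [if_pos rfl, incl_X, mul_comm]
    · intro a _ ha
      refine Finset.sum_eq_zero fun b _ => ?_
      rw [if_neg ha, map_zero, zero_mul]
    · intro h; exact absurd (Finset.mem_univ _) h
  · refine Finset.sum_congr rfl fun a _ => ?_
    rw [Finset.sum_eq_single (pos k).2]
    · rw [if_pos rfl, incl_X]
    · intro b _ hb
      rw [if_neg hb, map_zero, zero_mul]
    · intro h; exact absurd (Finset.mem_univ _) h

lemma mt_hom (pos : s → Fin n × Fin n) (k : s) (x : Fin n × Fin n) :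
    (mt K pos k x).IsHomogeneous 1 := by
  rw [mt]
  refine IsHomogeneous.sub ?_ ?_
  · split_ifs
    · exact isHomogeneous_X _ _
    · exact isHomogeneous_zero _ _ _
  · split_ifs
    · exact isHomogeneous_X _ _
    · exact isHomogeneous_zero _ _ _

/-- **Criterion** for the positions `pos`. -/
theorem prime_of_positions (pos : s → Fin n × Fin n)
    (h : ∀ P : Ideal (MvPolynomial (s ⊕ (Fin n × Fin n)) K), P.IsPrime →
      (∀ a b : Fin n, ∑ k, ((if a = (pos k).1 then X (Sum.inr (b, (pos k).2)) else 0) -
        (if b = (pos k).2 then X (Sum.inr ((pos k).1, a)) else 0)) * X (Sum.inl k) ∈ P) →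
      (∃ k, X (Sum.inl k) ∉ P) → dm P + 1 ≤ n * n) :
    (Ideal.span (Set.range fun k => cm K n (pos k).1 (pos k).2)).IsPrime := by
  have h1 := prime_of_linear_dual (mt K pos) (fun _ => 1) (mt_hom pos) (by
    intro P hP hle hk
    rw [Fintype.card_prod, Fintype.card_fin]
    refine h P hP (fun a b => ?_) hk
    have := hle (a, b)
    refine (Ideal.mem_iff_of_associated ?_).1 this
    rw [show ∑ k, incl K s (Fin n × Fin n) (mt K pos k (a, b)) * X (Sum.inl k) =
      ∑ k, ((if a = (pos k).1 then X (Sum.inr (b, (pos k).2)) else 0) -
        (if b = (pos k).2 then X (Sum.inr ((pos k).1, a)) else 0)) * X (Sum.inl k) from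
      Finset.sum_congr rfl fun k _ => by
        rw [mt, map_sub]
        congr 2
        · split_ifs
          · rw [incl_X]
          · rw [map_zero]
        · split_ifs
          · rw [incl_X]
          · rw [map_zero]])
  have h2 : (fun k => cm K n (pos k).1 (pos k).2) = lf (mt K pos) :=
    funext fun k => (lf_mt pos k).symm
  rw [h2]
  exact h1

/-! ### antidiagonal entries -/

/-- the antidiagonal ideal is prime -/
theorem prime_anti (hn : 3 ≤ n) :
    (Ideal.span (Set.range fun k : Fin n => cm K n k k.rev)).IsPrime := by
  classical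
  refine prime_of_positions (fun k : Fin n => (k, k.rev)) ?_
  intro P hP hle hk
  -- the relations
  have hR : ∀ p q : Fin n, X (Sum.inr (p, q.rev)) * X (Sum.inl q) -
      X (Sum.inr (p.rev, q)) * X (Sum.inl p.rev) ∈ P := by
    intro p q
    have h1 := hle q p
    simp only [sub_mul, ite_mul, zero_mul, Finset.sum_sub_distrib] at h1
    rw [Finset.sum_eq_single q, Finset.sum_eq_single p.rev] at h1
    · rwa [if_pos rfl, if_pos (Fin.rev_rev p).symm] at h1
    · intro b _ hb
      exact if_neg fun h' => hb (by rw [h', Fin.rev_rev])
    · intro h; exact absurd (Finset.mem_univ _) h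
    · intro b _ hb
      exact if_neg fun h' => hb h'.symm
    · intro h; exact absurd (Finset.mem_univ _) h
  by_cases hc : ∃ i : Fin n, i ≠ i.rev ∧ (X (Sum.inl i) : MvPolynomial _ K) ∉ P
  · obtain ⟨i, hii, hi⟩ := hc
    obtain ⟨q0, hq0⟩ : ∃ q0 : Fin n, q0 ∉ ({i, i.rev} : Finset (Fin n)) := by
      by_contra hcon
      push Not at hcon
      have h1 : (Finset.univ : Finset (Fin n)) ⊆ {i, i.rev} := fun x _ => hcon x
      have h2 := Finset.card_le_card h1
      have h3 : ({i, i.rev} : Finset (Fin n)).card ≤ 2 := Finset.card_le_two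
      rw [Finset.card_univ, Fintype.card_fin] at h2
      omega
    rw [Finset.mem_insert, Finset.mem_singleton, not_or] at hq0
    let E : Finset (Fin n ⊕ (Fin n × Fin n)) :=
      insert (Sum.inr (i, q0)) (Finset.univ.image fun p : Fin n => Sum.inr (p, i.rev))
    have hE : E.card = n + 1 := by
      rw [Finset.card_insert_of_notMem, Finset.card_image_of_injective, Finset.card_univ,
        Fintype.card_fin]
      · intro p p' h
        exact (Prod.mk.inj (Sum.inr.inj h)).1
      · intro h
        obtain ⟨p, -, hp⟩ := Finset.mem_image.1 h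
        exact hq0.2 (Prod.mk.inj (Sum.inr.inj hp)).2.symm
    have hEc : Eᶜ.card + E.card = n + n * n := by
      rw [Finset.card_compl_add_card, Fintype.card_sum, Fintype.card_prod, Fintype.card_fin]
    have h1 := dm_le_card_of_closure P Eᶜ (by
      intro C hC hG
      have hL : ∀ k : Fin n, X (Sum.inl k) ∈ C := by
        intro k
        refine hG _ ?_
        rw [Finset.mem_compl]
        intro h
        rcases Finset.mem_insert.1 h with h | h
        · cases h
        · obtain ⟨p, -, hp⟩ := Finset.mem_image.1 h
          cases hp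
      have hY : ∀ p q : Fin n, q ≠ i.rev → (p, q) ≠ (i, q0) → X (Sum.inr (p, q)) ∈ C := by
        intro p q hq hpq
        refine hG _ ?_
        rw [Finset.mem_compl]
        intro h
        rcases Finset.mem_insert.1 h with h | h
        · exact hpq (Sum.inr.inj h)
        · obtain ⟨p', -, hp⟩ := Finset.mem_image.1 h
          exact hq (Prod.mk.inj (Sum.inr.inj hp)).2.symm
      have hcol : ∀ p : Fin n, X (Sum.inr (p, i.rev)) ∈ C := by
        intro p
        have h1 := hR p i
        refine hC.div (X (Sum.inl i)) (X (Sum.inr (p.rev, i)) * X (Sum.inl p.rev)) _ (hL i)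
          (C.mul_mem (hY _ _ hii fun h => hq0.1 (Prod.mk.inj h).2.symm) (hL _)) hi ?_
        rwa [mul_comm (X (Sum.inl i))]
      have hone : X (Sum.inr (i, q0)) ∈ C := by
        have h1 := P.neg_mem (hR i.rev q0)
        rw [Fin.rev_rev, neg_sub] at h1
        refine hC.div (X (Sum.inl i)) (X (Sum.inr (i.rev, q0.rev)) * X (Sum.inl q0)) _ (hL i)
          (C.mul_mem (hY _ _ (fun h => hq0.1 (Fin.rev_injective h))
            fun h => hii (Prod.mk.inj h).1.symm) (hL _)) hi ?_
        rwa [mul_comm (X (Sum.inl i))]
      rintro (k | ⟨p, q⟩)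
      · exact hL k
      · by_cases hq : q = i.rev
        · rw [hq]; exact hcol p
        · by_cases hpq : (p, q) = (i, q0)
          · rw [hpq]; exact hone
          · exact hY p q hq hpq)
    omega
  · push Not at hc
    obtain ⟨i, hi⟩ := hk
    have hii : i = i.rev := by
      by_contra h
      exact hi (hc i h)
    let E : Finset (Fin n ⊕ (Fin n × Fin n)) :=
      ((Finset.univ.erase i).image Sum.inl) ∪
      ((Finset.univ.erase i).image fun p : Fin n => Sum.inr (p, i))
    have hE : E.card = (n - 1) + (n - 1) := by
      rw [Finset.card_union_of_disjoint, Finset.card_image_of_injective _ Sum.inl_injective,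
        Finset.card_image_of_injective, Finset.card_erase_of_mem (Finset.mem_univ i),
        Finset.card_univ, Fintype.card_fin]
      · intro p p' h
        exact (Prod.mk.inj (Sum.inr.inj h)).1
      · rw [Finset.disjoint_left]
        intro x hx hx'
        obtain ⟨a, -, rfl⟩ := Finset.mem_image.1 hx
        obtain ⟨b, -, hb⟩ := Finset.mem_image.1 hx'
        cases hb
    have hEc : Eᶜ.card + E.card = n + n * n := by
      rw [Finset.card_compl_add_card, Fintype.card_sum, Fintype.card_prod, Fintype.card_fin]
    have hrev : ∀ p : Fin n, p ≠ i → p ≠ p.rev := by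
      intro p hp h
      apply hp
      rw [Fin.ext_iff, Fin.val_rev] at h hii
      ext
      omega
    have h1 := dm_le_card_of_closure P Eᶜ (by
      intro C hC hG
      have hL : ∀ k : Fin n, X (Sum.inl k) ∈ C := by
        intro k
        by_cases hk : k = i
        · refine hG _ ?_
          rw [Finset.mem_compl, Finset.mem_union, not_or]
          constructor
          · intro h
            obtain ⟨a, ha, ha'⟩ := Finset.mem_image.1 h
            rw [Sum.inl.inj ha'] at ha
            exact (Finset.mem_erase.1 ha).1 hk
          · intro h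
            obtain ⟨p, -, hp⟩ := Finset.mem_image.1 h
            cases hp
        · exact hC.le _ (hc k (hrev k hk))
      rintro (k | ⟨p, q⟩)
      · exact hL k
      · by_cases hpq : p ≠ i ∧ q = i
        · obtain ⟨hp, rfl⟩ := hpq
          have h1 := hR p q
          rw [← hii] at h1
          have h2 : X (Sum.inl p.rev) ∈ P := hc _ (fun h => hrev p hp (by
            rw [Fin.rev_rev] at h; exact h.symm))
          have h3 := P.add_mem h1 (P.mul_mem_left (X (Sum.inr (p.rev, q))) h2)
          rw [sub_add_cancel] at h3
          exact hC.le _ ((hP.mem_or_mem h3).resolve_right hi)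
        · refine hG _ ?_
          rw [Finset.mem_compl, Finset.mem_union, not_or]
          constructor
          · intro h
            obtain ⟨a, ha, ha'⟩ := Finset.mem_image.1 h
            cases ha'
          · intro h
            obtain ⟨p', hp', hp⟩ := Finset.mem_image.1 h
            obtain ⟨rfl, rfl⟩ := Prod.mk.inj (Sum.inr.inj hp)
            exact hpq ⟨(Finset.mem_erase.1 hp').1, rfl⟩)
    omega

end Q37.Comm
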