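import Pool.Agent.Q37.Comm

/-!
# Diagonal and antidiagonal entries of the commutator
-/

set_option autoImplicit false
set_option linter.unusedSectionVars false

open MvPolynomial

namespace Q37.Comm

open Q37.Dim

variable {K : Type} [Field K] {n : ℕ}

/-- the coefficient at a position -/
noncomputable def La (K : Type) [Field K] {n : ℕ} (S : Finset (Fin n × Fin n))
    (x : Fin n × Fin n) : MvPolynomial (S ⊕ (Fin n × Fin n)) K :=
  if h : x ∈ S then X (Sum.inl ⟨x, h⟩) else 0

/-- the second matrix -/
noncomputable def Yy (K : Type) [Field K] {n : ℕ} (S : Finset (Fin n × Fin n)) (a b : Fin n) :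
    MvPolynomial (S ⊕ (Fin n × Fin n)) K := X (Sum.inr (a, b))

lemma sum_La (S : Finset (Fin n × Fin n)) (F : Fin n × Fin n →
    MvPolynomial (S ⊕ (Fin n × Fin n)) K) :
    ∑ k : S, F k * X (Sum.inl k) = ∑ x, F x * La K S x := by
  classical
  rw [← Finset.sum_subset (Finset.subset_univ S) (fun x _ hx => by
    rw [La, dif_neg hx, mul_zero]), ← Finset.sum_coe_sort S]
  refine Finset.sum_congr rfl fun k _ => ?_
  rw [La, dif_pos k.2]

/-- **Criterion** for a set of positions. -/
theorem prime_of_set (S : Finset (Fin n × Fin n))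
    (h : ∀ P : Ideal (MvPolynomial (S ⊕ (Fin n × Fin n)) K), P.IsPrime →
      (∀ p q : Fin n, ∑ c, Yy K S p c * La K S (q, c) - ∑ c, Yy K S c q * La K S (c, p) ∈ P) →
      (∃ x, La K S x ∉ P) → dm P + 1 ≤ n * n) :
    (Ideal.span {f | ∃ x ∈ S, f = cm K n x.1 x.2}).IsPrime := by
  classical
  have h1 : {f | ∃ x ∈ S, f = cm K n x.1 x.2} =
      Set.range (fun k : S => cm K n (k : Fin n × Fin n).1 (k : Fin n × Fin n).2) := by
    ext f
    constructor
    · rintro ⟨x, hx, rfl⟩
      exact ⟨⟨x, hx⟩, rfl⟩
    · rintro ⟨⟨x, hx⟩, rfl⟩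
      exact ⟨x, hx, rfl⟩
  rw [h1]
  refine prime_of_positions (fun k : S => (k : Fin n × Fin n)) ?_
  rintro P hP hle ⟨k, hk⟩
  refine h P hP ?_ ⟨k, by rw [La, dif_pos k.2]; exact hk⟩
  intro p q
  have h2 := hle q p
  rw [sum_La S (fun x => (if q = x.1 then X (Sum.inr (p, x.2)) else 0) -
    (if p = x.2 then X (Sum.inr (x.1, q)) else 0)), Fintype.sum_prod_type] at h2
  simp only [sub_mul, ite_mul, zero_mul, Finset.sum_sub_distrib] at h2
  rw [Finset.sum_eq_single q] at h2
  · simp only [if_true] at h2
    have h3 : ∀ a : Fin n, (∑ b, if p = b then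
        (X (Sum.inr (a, q)) : MvPolynomial (S ⊕ (Fin n × Fin n)) K) * La K S (a, b) else 0) =
        X (Sum.inr (a, q)) * La K S (a, p) := by
      intro a
      rw [Finset.sum_ite_eq, if_pos (Finset.mem_univ _)]
    rw [Finset.sum_congr rfl fun a _ => h3 a] at h2
    exact h2
  · intro b _ hb
    refine Finset.sum_eq_zero fun c _ => ?_
    rw [if_neg hb.symm]
  · intro h; exact absurd (Finset.mem_univ _) h

/-! ### the positions -/

/-- diagonal and antidiagonal positions without `(z, z)` -/
def dap (z : Fin n) : Finset (Fin n × Fin n) :=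
  Finset.univ.filter fun x => (x.1 = x.2 ∨ x.2 = x.1.rev) ∧ x ≠ (z, z)

lemma mem_dap {z : Fin n} {x : Fin n × Fin n} :
    x ∈ dap z ↔ (x.1 = x.2 ∨ x.2 = x.1.rev) ∧ x ≠ (z, z) := by simp [dap]

/-- indices different from their reflection -/
def nc (n : ℕ) : Finset (Fin n) := Finset.univ.filter fun i => i ≠ i.rev

lemma card_nc : n ≤ (nc n).card + 1 := by
  have h1 : (nc n)ᶜ.card ≤ 1 := by
    rw [Finset.card_le_one]
    intro a ha b hb
    rw [nc, Finset.mem_compl, Finset.mem_filter, not_and, not_not] at ha hb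
    have ha := ha (Finset.mem_univ _)
    have hb := hb (Finset.mem_univ _)
    rw [Fin.ext_iff, Fin.val_rev] at ha hb
    ext
    omega
  have h2 := Finset.card_compl_add_card (nc n)
  rw [Fintype.card_fin] at h2
  omega

lemma card_dap (z : Fin n) : (dap z).card + 1 ≤ n + (nc n).card := by
  classical
  have h1 : dap z ⊆ ((Finset.univ.erase z).image fun i => (i, i)) ∪
      ((nc n).image fun i => (i, i.rev)) := by
    rintro ⟨a, b⟩ hx
    rw [mem_dap] at hx
    obtain ⟨h1, h2⟩ := hx
    by_cases hab : a = b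
    · subst hab
      refine Finset.mem_union_left _ (Finset.mem_image.2 ⟨a, ?_, rfl⟩)
      rw [Finset.mem_erase]
      exact ⟨fun h => h2 (by rw [h]), Finset.mem_univ _⟩
    · have h3 : b = a.rev := h1.resolve_left hab
      refine Finset.mem_union_right _ (Finset.mem_image.2 ⟨a, ?_, by rw [h3]⟩)
      rw [nc, Finset.mem_filter]
      exact ⟨Finset.mem_univ _, fun h => hab (by rw [h3]; exact h)⟩
  have h2 := Finset.card_le_card h1
  have h3 := Finset.card_union_le ((Finset.univ.erase z).image fun i => (i, i))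
    ((nc n).image fun i => (i, i.rev))
  have h4 : ((Finset.univ.erase z).image fun i : Fin n => (i, i)).card ≤ n - 1 := by
    refine Finset.card_image_le.trans ?_
    rw [Finset.card_erase_of_mem (Finset.mem_univ z), Finset.card_univ, Fintype.card_fin]
  have h5 : ((nc n).image fun i => (i, i.rev)).card ≤ (nc n).card := Finset.card_image_le
  have := z.2
  omega

section

variable {z : Fin n} {P : Ideal (MvPolynomial ((dap z) ⊕ (Fin n × Fin n)) K)}

lemma La_zz : La K (dap z) (z, z) = 0 := by
  rw [La, dif_neg]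
  rw [mem_dap]
  exact fun h => h.2 rfl

lemma La_off {a b : Fin n} (h1 : a ≠ b) (h2 : b ≠ a.rev) : La K (dap z) (a, b) = 0 := by
  rw [La, dif_neg]
  rw [mem_dap]
  exact fun h => h.1.elim h1 h2

/-- sums against a row -/
lemma sum_row (f : Fin n → MvPolynomial ((dap z) ⊕ (Fin n × Fin n)) K) (q : Fin n) :
    ∑ c, f c * La K (dap z) (q, c) = f q * La K (dap z) (q, q) +
      if q = q.rev then 0 else f q.rev * La K (dap z) (q, q.rev) := by
  classical
  split_ifs with hq
  · rw [add_zero]
    refine Finset.sum_eq_single q (fun c _ hc => ?_) (fun h => absurd (Finset.mem_univ _) h)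
    rw [La_off hc.symm (by rw [← hq]; exact hc), mul_zero]
  · have h2 := Finset.sum_pair (f := fun c => f c * La K (dap z) (q, c)) hq
    rw [← h2]
    refine (Finset.sum_subset (Finset.subset_univ _) fun c _ hc => ?_).symm
    rw [Finset.mem_insert, Finset.mem_singleton, not_or] at hc
    rw [La_off (Ne.symm hc.1) hc.2, mul_zero]

/-- sums against a column -/
lemma sum_col (f : Fin n → MvPolynomial ((dap z) ⊕ (Fin n × Fin n)) K) (p : Fin n) :
    ∑ c, f c * La K (dap z) (c, p) = f p * La K (dap z) (p, p) +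
      if p = p.rev then 0 else f p.rev * La K (dap z) (p.rev, p) := by
  classical
  split_ifs with hq
  · rw [add_zero]
    refine Finset.sum_eq_single p (fun c _ hc => ?_) (fun h => absurd (Finset.mem_univ _) h)
    rw [La_off hc (fun h => hc (by rw [← Fin.rev_rev c, ← h, ← hq])), mul_zero]
  · have h2 := Finset.sum_pair (f := fun c => f c * La K (dap z) (c, p)) hq
    rw [← h2]
    refine (Finset.sum_subset (Finset.subset_univ _) fun c _ hc => ?_).symm
    rw [Finset.mem_insert, Finset.mem_singleton, not_or] at hc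
    rw [La_off hc.1 (fun h => hc.2 (by rw [h, Fin.rev_rev])), mul_zero]

end

end Q37.Comm
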