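import Pool.Agent.Q37.Comm2

/-!
# Diagonal and antidiagonal entries of the commutator: the case analysis
-/

set_option autoImplicit false
set_option linter.unusedSectionVars false

open MvPolynomial

namespace Q37.Comm

open Q37.Dim

variable {K : Type} [Field K] {n : ℕ}

section

variable {z : Fin n} {P : Ideal (MvPolynomial ((dap z) ⊕ (Fin n × Fin n)) K)}

/-- the relations -/
def Rel (P : Ideal (MvPolynomial ((dap z) ⊕ (Fin n × Fin n)) K)) : Prop :=
  ∀ p q : Fin n, (Yy K (dap z) p q * La K (dap z) (q, q) +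
    if q = q.rev then 0 else Yy K (dap z) p q.rev * La K (dap z) (q, q.rev)) -
    (Yy K (dap z) p q * La K (dap z) (p, p) +
    if p = p.rev then 0 else Yy K (dap z) p.rev q * La K (dap z) (p.rev, p)) ∈ P

lemma rel_of (h : ∀ p q : Fin n, ∑ c, Yy K (dap z) p c * La K (dap z) (q, c) -
    ∑ c, Yy K (dap z) c q * La K (dap z) (c, p) ∈ P) : Rel P := by
  intro p q
  have := h p q
  rw [sum_row (fun c => Yy K (dap z) p c) q, sum_col (fun c => Yy K (dap z) c q) p] at this
  exact this

/-- counting -/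
lemma bound_of_E [P.IsPrime] (E : Finset ((dap z) ⊕ (Fin n × Fin n)))
    (hE : n + (nc n).card ≤ E.card)
    (h : ∀ C : Subalgebra K (MvPolynomial ((dap z) ⊕ (Fin n × Fin n)) K), DivClosed P C →
      (∀ x, x ∉ E → X x ∈ C) → ∀ x, X x ∈ C) : dm P + 1 ≤ n * n := by
  classical
  have h1 := dm_le_card_of_closure P Eᶜ fun C hC hG =>
    h C hC fun x hx => hG x (Finset.mem_compl.2 hx)
  have h2 : Eᶜ.card + E.card = (dap z).card + n * n := by
    rw [Finset.card_compl_add_card, Fintype.card_sum, Fintype.card_prod, Fintype.card_fin,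
      Fintype.card_coe]
  have h3 := card_dap z
  omega

/-- the coefficients lie in `C` when the kept ones do -/
lemma La_mem {C : Subalgebra K (MvPolynomial ((dap z) ⊕ (Fin n × Fin n)) K)} {x : Fin n × Fin n}
    (h : ∀ hx : x ∈ dap z, X (Sum.inl ⟨x, hx⟩) ∈ C) : La K (dap z) x ∈ C := by
  rw [La]
  split_ifs with hx
  · exact h hx
  · exact C.zero_mem

lemma La_pos {x : Fin n × Fin n} (hx : x ∈ dap z) :
    La K (dap z) x = X (Sum.inl ⟨x, hx⟩) := by rw [La, dif_pos hx]

/-- elimination of a column and a row -/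
lemma close_row_col (hR : Rel P) {C : Subalgebra K (MvPolynomial ((dap z) ⊕ (Fin n × Fin n)) K)}
    (hC : DivClosed P C) (hL : ∀ x, La K (dap z) x ∈ C) {i : Fin n} (hii : i ≠ i.rev)
    (hA : La K (dap z) (i.rev, i) ∉ P) (h1 : ∀ p, Yy K (dap z) p i.rev ∈ C)
    (h2 : ∀ q, q ≠ i → Yy K (dap z) i q ∈ C) :
    (∀ p, Yy K (dap z) p i ∈ C) ∧ ∀ q, Yy K (dap z) i.rev q ∈ C := by
  have hcol : ∀ p, Yy K (dap z) p i ∈ C := by
    intro p
    have h3 := hR p i.rev
    rw [Fin.rev_rev, if_neg hii.symm] at h3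
    refine hC.div (La K (dap z) (i.rev, i)) (-(Yy K (dap z) p i.rev * La K (dap z) (i.rev, i.rev)) +
      (Yy K (dap z) p i.rev * La K (dap z) (p, p) +
      if p = p.rev then 0 else Yy K (dap z) p.rev i.rev * La K (dap z) (p.rev, p))) _ (hL _)
      ?_ hA ?_
    · refine C.add_mem (C.neg_mem (C.mul_mem (h1 _) (hL _))) (C.add_mem
        (C.mul_mem (h1 _) (hL _)) ?_)
      split_ifs
      · exact C.zero_mem
      · exact C.mul_mem (h1 _) (hL _)
    · convert h3 using 1
      ring
  refine ⟨hcol, fun q => ?_⟩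
  by_cases hq : q = i
  · rw [hq]; exact hcol _
  by_cases hq' : q = i.rev
  · rw [hq']; exact h1 _
  have h3 := P.neg_mem (hR i q)
  rw [if_neg hii] at h3
  refine hC.div (La K (dap z) (i.rev, i)) ((Yy K (dap z) i q * La K (dap z) (q, q) +
    if q = q.rev then 0 else Yy K (dap z) i q.rev * La K (dap z) (q, q.rev)) -
    Yy K (dap z) i q * La K (dap z) (i, i)) _ (hL _) ?_ hA ?_
  · refine C.sub_mem (C.add_mem (C.mul_mem (h2 _ hq) (hL _)) ?_) (C.mul_mem (h2 _ hq) (hL _))
    split_ifs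
    · exact C.zero_mem
    · exact C.mul_mem (h2 _ fun h => hq' (by rw [← h, Fin.rev_rev])) (hL _)
  · convert h3 using 1
    ring

/-- the eliminated column and row -/
def EY (z i : Fin n) : Finset ((dap z) ⊕ (Fin n × Fin n)) :=
  (Finset.univ.image fun p : Fin n => Sum.inr (p, i)) ∪
  (((Finset.univ.erase i).erase i.rev).image fun q : Fin n => Sum.inr (i.rev, q))

lemma card_EY {i : Fin n} (hii : i ≠ i.rev) : (EY z i).card = n + (n - 2) := by
  rw [EY, Finset.card_union_of_disjoint, Finset.card_image_of_injective,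
    Finset.card_image_of_injective, Finset.card_erase_of_mem, Finset.card_erase_of_mem,
    Finset.card_univ, Fintype.card_fin]
  · omega
  · exact Finset.mem_univ _
  · exact Finset.mem_erase.2 ⟨hii.symm, Finset.mem_univ _⟩
  · intro p p' h
    exact (Prod.mk.inj (Sum.inr.inj h)).2
  · intro p p' h
    exact (Prod.mk.inj (Sum.inr.inj h)).1
  · rw [Finset.disjoint_left]
    intro x hx hx'
    obtain ⟨a, -, rfl⟩ := Finset.mem_image.1 hx
    obtain ⟨b, hb, hb'⟩ := Finset.mem_image.1 hx'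
    obtain ⟨-, rfl⟩ := Prod.mk.inj (Sum.inr.inj hb')
    exact (Finset.mem_erase.1 (Finset.mem_erase.1 hb).2).1 rfl

lemma inl_notMem_EY {i : Fin n} {k : dap z} : (Sum.inl k : (dap z) ⊕ (Fin n × Fin n)) ∉ EY z i := by
  rw [EY, Finset.mem_union, not_or]
  constructor
  · intro h
    obtain ⟨a, -, ha⟩ := Finset.mem_image.1 h
    cases ha
  · intro h
    obtain ⟨a, -, ha⟩ := Finset.mem_image.1 h
    cases ha

lemma inr_mem_EY {i : Fin n} {p q : Fin n} :
    (Sum.inr (p, q) : (dap z) ⊕ (Fin n × Fin n)) ∈ EY z i ↔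
      q = i ∨ (p = i.rev ∧ q ≠ i.rev) := by
  rw [EY, Finset.mem_union, Finset.mem_image, Finset.mem_image]
  constructor
  · rintro (⟨a, -, ha⟩ | ⟨b, hb, hb'⟩)
    · left
      exact (Prod.mk.inj (Sum.inr.inj ha)).2.symm
    · obtain ⟨rfl, rfl⟩ := Prod.mk.inj (Sum.inr.inj hb')
      exact Or.inr ⟨rfl, (Finset.mem_erase.1 hb).1⟩
  · rintro (rfl | ⟨rfl, hq⟩)
    · exact Or.inl ⟨p, Finset.mem_univ _, rfl⟩
    · by_cases h : q = i
      · subst h
        exact Or.inl ⟨_, Finset.mem_univ _, rfl⟩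
      · exact Or.inr ⟨q, Finset.mem_erase.2 ⟨hq, Finset.mem_erase.2 ⟨h, Finset.mem_univ _⟩⟩, rfl⟩

/-- antidiagonal positions -/
lemma anti_mem {i : Fin n} (hi : i ≠ i.rev) : (i, i.rev) ∈ dap z := by
  rw [mem_dap]
  refine ⟨Or.inr rfl, fun h => hi ?_⟩
  obtain ⟨h1, h2⟩ := Prod.mk.inj h
  exact h1.trans h2.symm

/-- antidiagonal coefficients -/
def EA (z : Fin n) (T : Finset (Fin n)) : Finset ((dap z) ⊕ (Fin n × Fin n)) :=
  (Finset.univ.filter fun x : dap z => x.1.1 ∈ T ∧ x.1.1 ≠ x.1.2).image Sum.inl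

lemma card_EA {T : Finset (Fin n)} (hT : T ⊆ nc n) : T.card ≤ (EA z T).card := by
  classical
  rw [EA, Finset.card_image_of_injective _ Sum.inl_injective]
  have h1 : T ⊆ (Finset.univ.filter fun x : dap z => x.1.1 ∈ T ∧ x.1.1 ≠ x.1.2).image
      fun x => x.1.1 := by
    intro i hi
    have h2 : i ≠ i.rev := (Finset.mem_filter.1 (hT hi)).2
    refine Finset.mem_image.2 ⟨⟨(i, i.rev), anti_mem h2⟩, ?_, rfl⟩
    exact Finset.mem_filter.2 ⟨Finset.mem_univ _, hi, h2⟩
  exact (Finset.card_le_card h1).trans Finset.card_image_le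

lemma mem_EA {T : Finset (Fin n)} {x : dap z} :
    (Sum.inl x : (dap z) ⊕ (Fin n × Fin n)) ∈ EA z T ↔ x.1.1 ∈ T ∧ x.1.1 ≠ x.1.2 := by
  rw [EA, Finset.mem_image]
  constructor
  · rintro ⟨y, hy, hxy⟩
    rw [← Sum.inl.inj hxy]
    exact (Finset.mem_filter.1 hy).2
  · intro h
    exact ⟨x, Finset.mem_filter.2 ⟨Finset.mem_univ _, h⟩, rfl⟩

lemma inr_notMem_EA {T : Finset (Fin n)} {x : Fin n × Fin n} :
    (Sum.inr x : (dap z) ⊕ (Fin n × Fin n)) ∉ EA z T := by
  rw [EA]
  intro h
  obtain ⟨a, -, ha⟩ := Finset.mem_image.1 h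
  cases ha

lemma disj_EY_EA {i : Fin n} {T : Finset (Fin n)} : Disjoint (EY z i) (EA z T) := by
  rw [Finset.disjoint_left]
  rintro (x | x) hx hx'
  · exact inl_notMem_EY hx
  · exact inr_notMem_EA hx'

/-- **the diagonal case** -/
lemma case_diag (hR : Rel P) (hP : P.IsPrime)
    (hA : ∀ i : Fin n, i ≠ i.rev → La K (dap z) (i, i.rev) ∈ P) {i0 : Fin n}
    (hi0 : La K (dap z) (i0, i0) ∉ P) : dm P + 1 ≤ n * n := by
  classical
  have hA' : ∀ i : Fin n, i ≠ i.rev → La K (dap z) (i.rev, i) ∈ P := by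
    intro i hi
    have := hA i.rev (by rw [Fin.rev_rev]; exact hi.symm)
    rwa [Fin.rev_rev] at this
  have hD : ∀ p q, La K (dap z) (q, q) - La K (dap z) (p, p) ∉ P → Yy K (dap z) p q ∈ P := by
    intro p q hpq
    have h1 := hR p q
    have h2 : (if q = q.rev then 0 else Yy K (dap z) p q.rev * La K (dap z) (q, q.rev)) ∈ P := by
      split_ifs with h
      · exact P.zero_mem
      · exact P.mul_mem_left _ (hA q h)
    have h3 : (if p = p.rev then 0 else Yy K (dap z) p.rev q * La K (dap z) (p.rev, p)) ∈ P := by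
      split_ifs with h
      · exact P.zero_mem
      · exact P.mul_mem_left _ (hA' p h)
    have h4 := P.add_mem (P.sub_mem h1 h2) h3
    have h5 : Yy K (dap z) p q * (La K (dap z) (q, q) - La K (dap z) (p, p)) ∈ P := by
      convert h4 using 1
      ring
    exact (hP.mem_or_mem h5).resolve_right hpq
  let f : Fin n → Fin n := fun b => if La K (dap z) (b, b) ∈ P then i0 else z
  have hf : ∀ b, Yy K (dap z) b (f b) ∈ P := by
    intro b
    apply hD
    by_cases hb : La K (dap z) (b, b) ∈ P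
    · have : f b = i0 := if_pos hb
      rw [this]
      intro h
      have := P.add_mem h hb
      rw [sub_add_cancel] at this
      exact hi0 this
    · have : f b = z := if_neg hb
      rw [this, La_zz, zero_sub]
      exact fun h => hb ((P.neg_mem_iff).1 h)
  refine bound_of_E (EA z (nc n) ∪ Finset.univ.image fun b : Fin n => Sum.inr (b, f b)) ?_ ?_
  · rw [Finset.card_union_of_disjoint, Finset.card_image_of_injective, Finset.card_univ,
      Fintype.card_fin]
    · have := card_EA (z := z) (Finset.Subset.refl (nc n))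
      omega
    · intro b b' h
      exact (Prod.mk.inj (Sum.inr.inj h)).1
    · rw [Finset.disjoint_left]
      intro x hx hx'
      obtain ⟨b, -, rfl⟩ := Finset.mem_image.1 hx'
      exact inr_notMem_EA hx
  · intro C hC hG
    rintro (k | ⟨p, q⟩)
    · by_cases hk : (Sum.inl k : (dap z) ⊕ (Fin n × Fin n)) ∈ EA z (nc n)
      · rw [mem_EA] at hk
        obtain ⟨⟨a, b⟩, hab⟩ := k
        have h1 : b = a.rev := ((mem_dap.1 hab).1).resolve_left hk.2
        subst h1
        have h2 := hA a hk.2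
        rw [La_pos hab] at h2
        exact hC.le _ h2
      · refine hG _ ?_
        rw [Finset.mem_union, not_or]
        refine ⟨hk, fun h => ?_⟩
        obtain ⟨b, -, hb⟩ := Finset.mem_image.1 h
        cases hb
    · by_cases hq : q = f p
      · rw [hq]
        exact hC.le _ (hf p)
      · refine hG _ ?_
        rw [Finset.mem_union, not_or]
        refine ⟨inr_notMem_EA, fun h => ?_⟩
        obtain ⟨b, -, hb⟩ := Finset.mem_image.1 h
        obtain ⟨rfl, rfl⟩ := Prod.mk.inj (Sum.inr.inj hb)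
        exact hq rfl

end

end Q37.Comm
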