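import Pool.Agent.Q37.Comm3

/-!
# Diagonal and antidiagonal entries of the commutator: the remaining cases
-/

set_option autoImplicit false
set_option linter.unusedSectionVars false

open MvPolynomial

namespace Q37.Comm

open Q37.Dim

variable {K : Type} [Field K] {n : ℕ}

section

variable {z : Fin n} {P : Ideal (MvPolynomial ((dap z) ⊕ (Fin n × Fin n)) K)}

lemma nc_le : (nc n).card ≤ n := by
  have := (nc n).card_le_univ
  rwa [Fintype.card_fin] at this

/-- a second nonzero antidiagonal coefficient -/
lemma case_A1 (hR : Rel P) (hP : P.IsPrime) {i j : Fin n} (hii : i ≠ i.rev)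
    (hA : La K (dap z) (i.rev, i) ∉ P) (hj : j ≠ i) (hj' : j ≠ i.rev) (hjj : j ≠ j.rev)
    (hB : La K (dap z) (j.rev, j) ∉ P) : dm P + 1 ≤ n * n := by
  classical
  have hn : 2 ≤ n := by
    by_contra hcon
    apply hii
    have := i.2
    rw [Fin.ext_iff, Fin.val_rev]
    omega
  have hj2 : j.rev ≠ i := fun h => hj' (by rw [← h, Fin.rev_rev])
  have hj3 : j.rev ≠ i.rev := fun h => hj (Fin.rev_injective h)
  refine bound_of_E (EY z i ∪ {Sum.inr (j, j), Sum.inr (j.rev, j)}) ?_ ?_
  · rw [Finset.card_union_of_disjoint, card_EY hii, Finset.card_pair]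
    · have := nc_le (n := n)
      omega
    · intro h
      exact hjj (Prod.mk.inj (Sum.inr.inj h)).1
    · rw [Finset.disjoint_right]
      intro x hx
      rw [Finset.mem_insert, Finset.mem_singleton] at hx
      rcases hx with rfl | rfl
      · rw [inr_mem_EY]
        rintro (h | ⟨h, -⟩)
        · exact hj h
        · exact hj' h
      · rw [inr_mem_EY]
        rintro (h | ⟨h, -⟩)
        · exact hj h
        · exact hj3 h
  · intro C hC hG
    have hL : ∀ x, La K (dap z) x ∈ C := fun x => La_mem fun hx => hG _ (by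
      rw [Finset.mem_union, not_or]
      refine ⟨inl_notMem_EY, fun h => ?_⟩
      rw [Finset.mem_insert, Finset.mem_singleton] at h
      rcases h with h | h <;> cases h)
    have hY : ∀ p q : Fin n, q ≠ i → (p ≠ i.rev ∨ q = i.rev) → (q ≠ j ∨ (p ≠ j ∧ p ≠ j.rev)) →
        Yy K (dap z) p q ∈ C := by
      intro p q h1 h2 h3
      refine hG _ ?_
      rw [Finset.mem_union, not_or, inr_mem_EY, Finset.mem_insert, Finset.mem_singleton]
      constructor
      · rintro (h | ⟨h, h'⟩)
        · exact h1 h
        · exact h2.elim (fun h2 => h2 h) h'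
      · rintro (h | h)
        · obtain ⟨h4, h5⟩ := Prod.mk.inj (Sum.inr.inj h)
          exact h3.elim (fun h3 => h3 h5) fun h3 => h3.1 h4
        · obtain ⟨h4, h5⟩ := Prod.mk.inj (Sum.inr.inj h)
          exact h3.elim (fun h3 => h3 h5) fun h3 => h3.2 h4
    have hjj' : Yy K (dap z) j j.rev ∈ C := hY _ _ hj2 (Or.inl hj') (Or.inl hjj.symm)
    have hj'j' : Yy K (dap z) j.rev j.rev ∈ C := hY _ _ hj2 (Or.inl hj3) (Or.inl hjj.symm)
    have hYjj : Yy K (dap z) j j ∈ C := by
      have h3 := hR j j.rev
      rw [Fin.rev_rev, if_neg hjj.symm, if_neg hjj] at h3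
      refine hC.div (La K (dap z) (j.rev, j))
        (-(Yy K (dap z) j j.rev * La K (dap z) (j.rev, j.rev)) +
        (Yy K (dap z) j j.rev * La K (dap z) (j, j) +
          Yy K (dap z) j.rev j.rev * La K (dap z) (j.rev, j))) _ (hL _) ?_ hB ?_
      · exact C.add_mem (C.neg_mem (C.mul_mem hjj' (hL _))) (C.add_mem
          (C.mul_mem hjj' (hL _)) (C.mul_mem hj'j' (hL _)))
      · convert h3 using 1
        ring
    have hYj'j : Yy K (dap z) j.rev j ∈ C := by
      have h3 := hR j.rev j.rev
      rw [Fin.rev_rev, if_neg hjj.symm, if_neg hjj.symm] at h3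
      refine hC.div (La K (dap z) (j.rev, j))
        (Yy K (dap z) j j.rev * La K (dap z) (j, j.rev)) _ (hL _)
        (C.mul_mem hjj' (hL _)) hB ?_
      convert h3 using 1
      ring
    have hall : ∀ p q : Fin n, q ≠ i → (p ≠ i.rev ∨ q = i.rev) → Yy K (dap z) p q ∈ C := by
      intro p q h1 h2
      by_cases h3 : q = j
      · subst h3
        by_cases h4 : p = q
        · rw [h4]; exact hYjj
        · by_cases h5 : p = q.rev
          · rw [h5]; exact hYj'j
          · exact hY p q h1 h2 (Or.inr ⟨h4, h5⟩)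
      · exact hY p q h1 h2 (Or.inl h3)
    obtain ⟨h4, h5⟩ := close_row_col hR hC hL hii hA (fun p => hall p _ hii.symm (Or.inr rfl))
      (fun q hq => hall i q hq (Or.inl hii))
    rintro (k | ⟨p, q⟩)
    · have := hL k.1
      rwa [La_pos k.2] at this
    · by_cases hq : q = i
      · rw [hq]; exact h4 p
      · by_cases hp : p = i.rev
        · rw [hp]; exact h5 q
        · exact hall p q hq (Or.inl hp)

/-- all other antidiagonal coefficients vanish -/
lemma case_A2 (hn : 4 ≤ n) (hR : Rel P) (hP : P.IsPrime) {i : Fin n} (hii : i ≠ i.rev)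
    (hA : La K (dap z) (i.rev, i) ∉ P)
    (hB : ∀ j : Fin n, j ≠ i → j ≠ i.rev → j ≠ j.rev → La K (dap z) (j, j.rev) ∈ P) :
    dm P + 1 ≤ n * n := by
  classical
  refine bound_of_E (EY z i ∪ EA z (((nc n).erase i).erase i.rev)) ?_ ?_
  · rw [Finset.card_union_of_disjoint disj_EY_EA, card_EY hii]
    have h1 := card_EA (z := z) (T := ((nc n).erase i).erase i.rev)
      ((Finset.erase_subset _ _).trans (Finset.erase_subset _ _))
    have h2 := Finset.pred_card_le_card_erase (s := nc n) (a := i)
    have h3 := Finset.pred_card_le_card_erase (s := (nc n).erase i) (a := i.rev)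
    omega
  · intro C hC hG
    have hL : ∀ x, La K (dap z) x ∈ C := by
      rintro ⟨a, b⟩
      refine La_mem fun hx => ?_
      by_cases h1 : a ∈ ((nc n).erase i).erase i.rev ∧ a ≠ b
      · have h2 : b = a.rev := ((mem_dap.1 hx).1).resolve_left h1.2
        subst h2
        have h3 := hB a (Finset.mem_erase.1 (Finset.mem_erase.1 h1.1).2).1
          (Finset.mem_erase.1 h1.1).1 h1.2
        rw [La_pos hx] at h3
        exact hC.le _ h3
      · refine hG _ ?_
        rw [Finset.mem_union, not_or]
        refine ⟨inl_notMem_EY, fun h => h1 ?_⟩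
        rw [mem_EA] at h
        exact h
    have hY : ∀ p q : Fin n, q ≠ i → (p ≠ i.rev ∨ q = i.rev) → Yy K (dap z) p q ∈ C := by
      intro p q h1 h2
      refine hG _ ?_
      rw [Finset.mem_union, not_or, inr_mem_EY]
      refine ⟨?_, inr_notMem_EA⟩
      rintro (h | ⟨h, h'⟩)
      · exact h1 h
      · exact h2.elim (fun h2 => h2 h) h'
    obtain ⟨h4, h5⟩ := close_row_col hR hC hL hii hA (fun p => hY p _ hii.symm (Or.inr rfl))
      (fun q hq => hY i q hq (Or.inl hii))
    rintro (k | ⟨p, q⟩)
    · have := hL k.1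
      rwa [La_pos k.2] at this
    · by_cases hq : q = i
      · rw [hq]; exact h4 p
      · by_cases hp : p = i.rev
        · rw [hp]; exact h5 q
        · exact hY p q hq (Or.inl hp)

/-- three by three matrices -/
lemma case_A3 (hn : n = 3) (hR : Rel P) (hP : P.IsPrime) {i : Fin n} (hii : i ≠ i.rev)
    (hA : La K (dap z) (i.rev, i) ∉ P) : dm P + 1 ≤ n * n := by
  classical
  have hnc : (nc n).card ≤ 2 := by
    have h1 : nc n ⊆ {i, i.rev} := by
      intro j hj
      rw [nc, Finset.mem_filter] at hj
      have hj := hj.2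
      rw [Finset.mem_insert, Finset.mem_singleton]
      rw [ne_eq, Fin.ext_iff, Fin.val_rev] at hj hii
      rw [Fin.ext_iff, Fin.ext_iff, Fin.val_rev]
      have := i.2
      have := j.2
      omega
    exact (Finset.card_le_card h1).trans Finset.card_le_two
  obtain ⟨c, hc1, hc2, hc3⟩ : ∃ c : Fin n, c ≠ i ∧ c ≠ i.rev ∧ c = c.rev := by
    refine ⟨⟨1, by omega⟩, ?_, ?_, ?_⟩
    · intro h
      apply hii
      rw [← h, Fin.ext_iff, Fin.val_rev]
      simp only
      omega
    · intro h
      apply hii
      have h' : i = (⟨1, by omega⟩ : Fin n).rev := by rw [h, Fin.rev_rev]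
      rw [h', Fin.ext_iff, Fin.val_rev, Fin.val_rev, Fin.val_rev]
      simp only
      omega
    · rw [Fin.ext_iff, Fin.val_rev]
      simp only
      omega
  set Δ := (La K (dap z) (i, i) - La K (dap z) (c, c)) *
    (La K (dap z) (i.rev, i.rev) - La K (dap z) (c, c)) -
    La K (dap z) (i.rev, i) * La K (dap z) (i, i.rev) with hΔ
  by_cases hΔP : Δ ∈ P
  · -- eliminate the other antidiagonal coefficient
    refine bound_of_E (EY z i ∪ {Sum.inl ⟨(i, i.rev), anti_mem hii⟩}) ?_ ?_
    · rw [Finset.card_union_of_disjoint, card_EY hii, Finset.card_singleton]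
      · omega
      · rw [Finset.disjoint_singleton_right]
        exact inl_notMem_EY
    · intro C hC hG
      have hL' : ∀ x, x ≠ (i, i.rev) → La K (dap z) x ∈ C := by
        intro x hx
        refine La_mem fun hx' => hG _ ?_
        rw [Finset.mem_union, not_or, Finset.mem_singleton]
        exact ⟨inl_notMem_EY, fun h => hx (congrArg Subtype.val (Sum.inl.inj h))⟩
      have h1 : La K (dap z) (i, i.rev) ∈ C := by
        refine hC.div (La K (dap z) (i.rev, i)) ((La K (dap z) (i, i) - La K (dap z) (c, c)) *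
          (La K (dap z) (i.rev, i.rev) - La K (dap z) (c, c))) _ (hL' _ ?_) ?_ hA ?_
        · exact fun h => hii (Prod.mk.inj h).2
        · refine C.mul_mem (C.sub_mem (hL' _ ?_) (hL' _ ?_)) (C.sub_mem (hL' _ ?_) (hL' _ ?_))
          · exact fun h => hii (Prod.mk.inj h).2
          · exact fun h => hc1 (Prod.mk.inj h).1
          · exact fun h => hii (Prod.mk.inj h).1.symm
          · exact fun h => hc1 (Prod.mk.inj h).1
        · have := P.neg_mem hΔP
          convert this using 1
          rw [hΔ]
          ring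
      have hL : ∀ x, La K (dap z) x ∈ C := by
        intro x
        by_cases hx : x = (i, i.rev)
        · rw [hx]; exact h1
        · exact hL' x hx
      have hY : ∀ p q : Fin n, q ≠ i → (p ≠ i.rev ∨ q = i.rev) → Yy K (dap z) p q ∈ C := by
        intro p q h1 h2
        refine hG _ ?_
        rw [Finset.mem_union, not_or, inr_mem_EY, Finset.mem_singleton]
        refine ⟨?_, fun h => by cases h⟩
        rintro (h | ⟨h, h'⟩)
        · exact h1 h
        · exact h2.elim (fun h2 => h2 h) h'
      obtain ⟨h4, h5⟩ := close_row_col hR hC hL hii hA (fun p => hY p _ hii.symm (Or.inr rfl))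
        (fun q hq => hY i q hq (Or.inl hii))
      rintro (k | ⟨p, q⟩)
      · have := hL k.1
        rwa [La_pos k.2] at this
      · by_cases hq : q = i
        · rw [hq]; exact h4 p
        · by_cases hp : p = i.rev
          · rw [hp]; exact h5 q
          · exact hY p q hq (Or.inl hp)
  · -- eliminate an entry of the central row
    have hYc : Yy K (dap z) c i.rev ∈ P := by
      have h1 := hR c i
      have h2 := hR c i.rev
      rw [if_neg hii, if_pos hc3] at h1
      rw [Fin.rev_rev, if_neg hii.symm, if_pos hc3] at h2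
      have h3 := P.sub_mem (P.mul_mem_left (La K (dap z) (i, i) - La K (dap z) (c, c)) h2)
        (P.mul_mem_left (La K (dap z) (i.rev, i)) h1)
      have h4 : Yy K (dap z) c i.rev * Δ ∈ P := by
        convert h3 using 1
        rw [hΔ]
        ring
      exact (hP.mem_or_mem h4).resolve_right hΔP
    refine bound_of_E (EY z i ∪ {Sum.inr (c, i.rev)}) ?_ ?_
    · rw [Finset.card_union_of_disjoint, card_EY hii, Finset.card_singleton]
      · omega
      · rw [Finset.disjoint_singleton_right, inr_mem_EY]
        rintro (h | ⟨h, -⟩)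
        · exact hii h.symm
        · exact hc2 h
    · intro C hC hG
      have hL : ∀ x, La K (dap z) x ∈ C := by
        intro x
        refine La_mem fun hx' => hG _ ?_
        rw [Finset.mem_union, not_or, Finset.mem_singleton]
        exact ⟨inl_notMem_EY, fun h => by cases h⟩
      have hY : ∀ p q : Fin n, q ≠ i → (p ≠ i.rev ∨ q = i.rev) → Yy K (dap z) p q ∈ C := by
        intro p q h1 h2
        by_cases h3 : (p, q) = (c, i.rev)
        · obtain ⟨rfl, rfl⟩ := Prod.mk.inj h3
          exact hC.le _ hYc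
        · refine hG _ ?_
          rw [Finset.mem_union, not_or, inr_mem_EY, Finset.mem_singleton]
          refine ⟨?_, fun h => h3 (Sum.inr.inj h)⟩
          rintro (h | ⟨h, h'⟩)
          · exact h1 h
          · exact h2.elim (fun h2 => h2 h) h'
      obtain ⟨h4, h5⟩ := close_row_col hR hC hL hii hA (fun p => hY p _ hii.symm (Or.inr rfl))
        (fun q hq => hY i q hq (Or.inl hii))
      rintro (k | ⟨p, q⟩)
      · have := hL k.1
        rwa [La_pos k.2] at this
      · by_cases hq : q = i
        · rw [hq]; exact h4 p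
        · by_cases hp : p = i.rev
          · rw [hp]; exact h5 q
          · exact hY p q hq (Or.inl hp)

/-- the bound in all cases -/
theorem bound (hn : 3 ≤ n) (hR : Rel P) (hP : P.IsPrime) (h : ∃ x, La K (dap z) x ∉ P) :
    dm P + 1 ≤ n * n := by
  classical
  by_cases h1 : ∃ i : Fin n, i ≠ i.rev ∧ La K (dap z) (i, i.rev) ∉ P
  · obtain ⟨i', hi', hA'⟩ := h1
    -- rename
    obtain ⟨i, rfl⟩ : ∃ i : Fin n, i' = i.rev := ⟨i'.rev, (Fin.rev_rev i').symm⟩
    rw [Fin.rev_rev] at hi' hA'
    by_cases h2 : ∃ j : Fin n, j ≠ i ∧ j ≠ i.rev ∧ j ≠ j.rev ∧ La K (dap z) (j.rev, j) ∉ P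
    · obtain ⟨j, h3, h4, h5, h6⟩ := h2
      exact case_A1 hR hP hi'.symm hA' h3 h4 h5 h6
    · rcases Nat.lt_or_ge 3 n with h3 | h3
      · refine case_A2 h3 hR hP hi'.symm hA' ?_
        intro j h4 h5 h6
        by_contra h7
        refine h2 ⟨j.rev, fun h => h5 (by rw [← h, Fin.rev_rev]), fun h => h4 (Fin.rev_injective h),
          ?_, ?_⟩
        · rw [Fin.rev_rev]; exact h6.symm
        · rw [Fin.rev_rev]; exact h7
      · exact case_A3 (le_antisymm h3 hn) hR hP hi'.symm hA'
  · push Not at h1
    obtain ⟨⟨a, b⟩, hx⟩ := h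
    have hmem : (a, b) ∈ dap z := by
      by_contra hcon
      apply hx
      rw [La, dif_neg hcon]
      exact P.zero_mem
    have hab : a = b := by
      by_contra hab
      have h2 : b = a.rev := ((mem_dap.1 hmem).1).resolve_left hab
      subst h2
      exact hx (h1 a hab)
    subst hab
    exact case_diag hR hP h1 hx

end

/-- trace -/
lemma sum_cm (K : Type) [Field K] (n : ℕ) : ∑ i, cm K n i i = 0 := by
  simp only [cm, Finset.sum_sub_distrib]
  rw [sub_eq_zero, Finset.sum_comm]
  exact Finset.sum_congr rfl fun i _ => Finset.sum_congr rfl fun j _ => mul_comm _ _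

/-- **the ideal of the diagonal and antidiagonal entries is prime** -/
theorem prime_diag_anti (hn : 3 ≤ n) :
    (Ideal.span {f | ∃ i j : Fin n, (j = i ∨ j = i.rev) ∧ f = cm K n i j}).IsPrime := by
  classical
  let z : Fin n := ⟨0, by omega⟩
  have h1 := prime_of_set (K := K) (dap z) (by
    intro P hP hle hx
    exact bound hn (rel_of hle) hP hx)
  have h2 : Ideal.span {f | ∃ i j : Fin n, (j = i ∨ j = i.rev) ∧ f = cm K n i j} =
      Ideal.span {f | ∃ x ∈ dap z, f = cm K n x.1 x.2} := by
    apply le_antisymm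
    · rw [Ideal.span_le]
      rintro _ ⟨i, j, hij, rfl⟩
      by_cases hz : (i, j) = (z, z)
      · obtain ⟨rfl, rfl⟩ := Prod.mk.inj hz
        have h3 := sum_cm K n
        rw [← Finset.add_sum_erase _ _ (Finset.mem_univ z)] at h3
        rw [SetLike.mem_coe, eq_neg_of_add_eq_zero_left h3]
        refine neg_mem (Ideal.sum_mem _ fun k hk => Ideal.subset_span ⟨(k, k), ?_, rfl⟩)
        rw [mem_dap]
        exact ⟨Or.inl rfl, fun h => (Finset.mem_erase.1 hk).1 (Prod.mk.inj h).1⟩
      · refine Ideal.subset_span ⟨(i, j), ?_, rfl⟩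
        rw [mem_dap]
        exact ⟨hij.imp (fun h => h.symm) id, hz⟩
    · rw [Ideal.span_le]
      rintro _ ⟨⟨i, j⟩, hx, rfl⟩
      exact Ideal.subset_span ⟨i, j, (mem_dap.1 hx).1.imp (fun h => h.symm) id, rfl⟩
  rw [h2]
  exact h1

end Q37.Comm
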