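import Mathlib

/-!
# Cross products of triples over a commutative ring
-/

set_option autoImplicit false

namespace Q37.LSSVec

variable {R : Type*} [CommRing R]

/-- dot product of triples -/
def dot (p q : Fin 3 → R) : R := p 0 * q 0 + p 1 * q 1 + p 2 * q 2

/-- the cross product of triples -/
def cr (p q : Fin 3 → R) : Fin 3 → R :=
  ![p 1 * q 2 - p 2 * q 1, p 2 * q 0 - p 0 * q 2, p 0 * q 1 - p 1 * q 0]

@[simp] lemma cr_zero (p q : Fin 3 → R) : cr p q 0 = p 1 * q 2 - p 2 * q 1 := rfl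
@[simp] lemma cr_one (p q : Fin 3 → R) : cr p q 1 = p 2 * q 0 - p 0 * q 2 := rfl
@[simp] lemma cr_two (p q : Fin 3 → R) : cr p q 2 = p 0 * q 1 - p 1 * q 0 := rfl

lemma map_cr {A : Type*} [CommRing A] (φ : R →+* A) (p q : Fin 3 → R) (i : Fin 3) :
    φ (cr p q i) = cr (fun j => φ (p j)) (fun j => φ (q j)) i := by
  fin_cases i <;> simp

/-- if `p` and `s` are orthogonal to `q` and `r` then `p × s` and `q × r` have product zero. -/
lemma cr_mul_cr (p s q r : Fin 3 → R) (h1 : dot p q = 0) (h2 : dot p r = 0)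
    (h3 : dot s q = 0) (h4 : dot s r = 0) (a b : Fin 3) : cr p s a * cr q r b = 0 := by
  have e : ∀ i, cr p (cr q r) i = 0 := by
    intro i
    have : cr p (cr q r) i = q i * dot p r - r i * dot p q := by
      fin_cases i <;> simp [dot] <;> ring
    rw [this, h1, h2]; ring
  have f : ∀ i, cr s (cr q r) i = 0 := by
    intro i
    have : cr s (cr q r) i = q i * dot s r - r i * dot s q := by
      fin_cases i <;> simp [dot] <;> ring
    rw [this, h3, h4]; ring
  have e0 := e 0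
  have e1 := e 1
  have e2 := e 2
  have f0 := f 0
  have f1 := f 1
  have f2 := f 2
  rw [cr_zero] at e0 f0
  rw [cr_one] at e1 f1
  rw [cr_two] at e2 f2
  generalize cr q r = m at *
  fin_cases a <;> fin_cases b <;> simp only [Fin.zero_eta, Fin.mk_one, Fin.reduceFinMk,
    cr_zero, cr_one, cr_two]
  · linear_combination s 0 * e0 + p 1 * f1 + p 2 * f2
  · linear_combination s 1 * e0 - p 1 * f0
  · linear_combination s 2 * e0 - p 2 * f0
  · linear_combination s 0 * e1 - p 0 * f1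
  · linear_combination s 1 * e1 + p 0 * f0 + p 2 * f2
  · linear_combination s 2 * e1 - p 2 * f1
  · linear_combination s 0 * e2 - p 0 * f2
  · linear_combination s 1 * e2 - p 1 * f2
  · linear_combination s 2 * e2 + p 0 * f0 + p 1 * f1

/-- The certificate for the graph on seven vertices: with
`H = c₁ c₂ c₃ c₄ (y₀ × y₃)₁ (y₂ × y₅)₁` and `w = (y₂ × y₃)₁`, every product
`(y₂ × y₃)_a H w` vanishes. -/
lemma cert_x (y : Fin 7 → Fin 3 → R)
    (h01 : dot (y 0) (y 1) = 0) (h02 : dot (y 0) (y 2) = 0) (h12 : dot (y 1) (y 2) = 0)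
    (h13 : dot (y 1) (y 3) = 0) (h23 : dot (y 2) (y 3) = 0) (h24 : dot (y 2) (y 4) = 0)
    (h34 : dot (y 3) (y 4) = 0) (h35 : dot (y 3) (y 5) = 0) (h45 : dot (y 4) (y 5) = 0)
    (a : Fin 3) :
    cr (y 2) (y 3) a * (y 1 0 * y 2 0 * y 3 0 * y 4 0 * cr (y 0) (y 3) 1 * cr (y 2) (y 5) 1)
      * cr (y 2) (y 3) 1 = 0 := by
  have comm : ∀ p q : Fin 3 → R, dot p q = dot q p := by intro p q; simp [dot]; ring
  -- `y₁` and `y₂` become parallel
  have A : ∀ b, cr (y 0) (y 3) 1 * cr (y 1) (y 2) b = 0 := fun b =>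
    cr_mul_cr _ _ _ _ h01 h02 (by rw [comm]; exact h13) (by rw [comm]; exact h23) 1 b
  have C : ∀ b, cr (y 2) (y 5) 1 * cr (y 3) (y 4) b = 0 := fun b =>
    cr_mul_cr _ _ _ _ h23 h24 (by rw [comm]; exact h35) (by rw [comm]; exact h45) 1 b
  have B : ∀ a b, cr (y 1) (y 4) a * cr (y 2) (y 3) b = 0 := fun a b =>
    cr_mul_cr _ _ _ _ h12 h13 (by rw [comm]; exact h24) (by rw [comm]; exact h34) a b
  have A0 := A 0
  have A1 := A 1
  have A2 := A 2
  have C0 := C 0
  have C1 := C 1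
  have C2 := C 2
  rw [cr_zero (y 1)] at A0
  rw [cr_one (y 1)] at A1
  rw [cr_two (y 1)] at A2
  rw [cr_zero (y 3)] at C0
  rw [cr_one (y 3)] at C1
  rw [cr_two (y 3)] at C2
  have Ba := B a 1
  -- `c₂ y₁ = c₁ y₂`, `c₃ y₄ = c₄ y₃` after multiplication
  generalize cr (y 0) (y 3) 1 = u at *
  generalize cr (y 2) (y 5) 1 = v at *
  generalize hw : cr (y 2) (y 3) 1 = w at *
  have key : u * v * (y 2 0 * y 3 0 * cr (y 1) (y 4) a - y 1 0 * y 4 0 * cr (y 2) (y 3) a) = 0 := by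
    fin_cases a <;> simp only [Fin.zero_eta, Fin.mk_one, Fin.reduceFinMk,
      cr_zero, cr_one, cr_two]
    · linear_combination (-(u * y 1 0 * y 2 1)) * C1 - v * y 3 0 * y 4 2 * A2
        - u * y 1 0 * y 2 2 * C2 - v * y 3 0 * y 4 1 * A1
    · linear_combination v * y 3 0 * y 4 0 * A1 + u * y 1 0 * y 2 0 * C1
    · linear_combination u * y 1 0 * y 2 0 * C2 + v * y 3 0 * y 4 0 * A2
  linear_combination (y 2 0 * y 3 0) * ((y 2 0 * y 3 0 * u * v) * Ba - w * key)

/-- The second certificate: `(y₃ × y₆)_a H w = 0`. -/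
lemma cert_y (y : Fin 7 → Fin 3 → R)
    (h23 : dot (y 2) (y 3) = 0) (h24 : dot (y 2) (y 4) = 0)
    (h34 : dot (y 3) (y 4) = 0) (h35 : dot (y 3) (y 5) = 0) (h45 : dot (y 4) (y 5) = 0)
    (h26 : dot (y 2) (y 6) = 0) (h36 : dot (y 3) (y 6) = 0)
    (a : Fin 3) :
    cr (y 3) (y 6) a * (y 1 0 * y 2 0 * y 3 0 * y 4 0 * cr (y 0) (y 3) 1 * cr (y 2) (y 5) 1)
      * cr (y 2) (y 3) 1 = 0 := by
  have comm : ∀ p q : Fin 3 → R, dot p q = dot q p := by intro p q; simp [dot]; ring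
  have C : ∀ b, cr (y 2) (y 5) 1 * cr (y 3) (y 4) b = 0 := fun b =>
    cr_mul_cr _ _ _ _ h23 h24 (by rw [comm]; exact h35) (by rw [comm]; exact h45) 1 b
  have B : cr (y 4) (y 6) a * cr (y 2) (y 3) 1 = 0 :=
    cr_mul_cr _ _ _ _ (by rw [comm]; exact h24) (by rw [comm]; exact h34)
      (by rw [comm]; exact h26) (by rw [comm]; exact h36) a 1
  have C0 := C 0
  have C1 := C 1
  have C2 := C 2
  rw [cr_zero (y 3)] at C0
  rw [cr_one (y 3)] at C1
  rw [cr_two (y 3)] at C2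
  generalize cr (y 0) (y 3) 1 = u at *
  generalize cr (y 2) (y 5) 1 = v at *
  generalize hw : cr (y 2) (y 3) 1 = w at *
  have key : v * (y 3 0 * cr (y 4) (y 6) a - y 4 0 * cr (y 3) (y 6) a) = 0 := by
    fin_cases a <;> simp only [Fin.zero_eta, Fin.mk_one, Fin.reduceFinMk,
      cr_zero, cr_one, cr_two]
    · linear_combination y 6 2 * C2 + y 6 1 * C1
    · linear_combination (-(y 6 0)) * C1
    · linear_combination (-(y 6 0)) * C2
  linear_combination (y 1 0 * y 2 0 * y 3 0 * u) * (y 3 0 * v * B - w * key)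

end Q37.LSSVec
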